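import Pool.Agent.Helper7.HL.Stmts

/-!
# Row BU: the generating function of the column tableaux is the integral Macdonald polynomial
at `t = 0`
-/

namespace Pool.Agent.Helper18.HL

open Finset MvPolynomial
open Pool.Agent.Helper32.HG Pool.Agent.Helper7.HL

theorem bu_factor (a d : ℕ) (ha : 0 < a) :
    (1 - 1 * (Polynomial.X : Polynomial ℤ) ^ a * 0 ^ d) ≠ 0 := by
  intro h
  rcases Nat.eq_zero_or_pos d with hd | hd
  · rw [hd, pow_zero, mul_one, one_mul] at h
    have h2 := congrArg (Polynomial.eval 0) h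
    rw [Polynomial.eval_sub, Polynomial.eval_one, Polynomial.eval_pow, Polynomial.eval_X,
      Polynomial.eval_zero, zero_pow ha.ne', sub_zero] at h2
    exact one_ne_zero h2
  · rw [zero_pow hd.ne', mul_zero, sub_zero] at h
    exact one_ne_zero h

theorem bu_symm_coeff {N : ℕ} {R : Type} [CommRing R] {G : MvPolynomial (Fin N) R}
    (hG : G.IsSymmetric) (γ : Fin N → ℕ) (σ : Equiv.Perm (Fin N)) :
    coeff (ex (γ ∘ σ)) G = coeff (ex γ) G := by
  have h6 := hG σ
  have h7 : ex γ = Finsupp.mapDomain σ (ex (γ ∘ σ)) := by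
    ext i
    rw [Finsupp.mapDomain_equiv_apply, ex_apply, ex_apply]
    simp
  conv_rhs => rw [← h6, h7]
  rw [coeff_rename_mapDomain _ σ.injective]

theorem st_BU (hBS1 : ST_BS1) (hBS3 : ST_BS3) (hBS4 : ST_BS4) (hUN : ST_UN) (hSTB : ST_STB)
    (hPM : ST_PM) (hAL2 : ST_AL2) (hDC : ST_DC) : ST_BU := by
  intro N cs
  induction cs generalizing N with
  | nil =>
    intro _ _
    have h0 : (ex (fun _ : Fin N => 0) : Fin N →₀ ℕ) = 0 := by
      ext i
      rfl
    unfold FB fJ
    simp only [tl, Finset.sum_singleton, wtc, List.countP_nil, DD, pow_zero, Hc, map_one]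
    rw [h0]
    rw [monomial_zero', C_1]
  | cons c cs ih =>
    intro hdec hle
    have hcN : c ≤ N := hle c (by simp)
    have hdec' : Dec cs := (List.pairwise_cons.mp hdec).2
    have hcs : ∀ c' ∈ cs, c' ≤ c := (List.pairwise_cons.mp hdec).1
    clear hle
    induction N, hcN using Nat.le_induction with
    | base =>
      have h1 := (hUN (Polynomial ℤ) Polynomial.X 0).1 c cs hdec
      have hs : (fJ (Polynomial.X : Polynomial ℤ) 0 c cs).IsSymmetric :=
        (hSTB (Polynomial ℤ) _).1 c
      rw [(hDC c (Polynomial ℤ) Polynomial.X 0 0).2.2.2 _ rfl hs] at h1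
      have h2 : Dl c (Polynomial ℤ) * (fJ (Polynomial.X : Polynomial ℤ) 0 c (c :: cs) -
          (∏ i : Fin c, X i) * fJ (Polynomial.X : Polynomial ℤ) 0 c cs) = 0 := by
        rw [mul_sub, h1]
        ring
      have h3 := (hAL2 c (Polynomial ℤ)).2 _ h2
      rw [sub_eq_zero] at h3
      rw [hBS4.2 c cs hdec, h3, ih c hdec' hcs]
    | succ N hcN ihN =>
      obtain ⟨G, hG⟩ : ∃ G, G = FB (N + 1) (c :: cs) +
        C (-1) * fJ (Polynomial.X : Polynomial ℤ) 0 (N + 1) (c :: cs) := ⟨_, rfl⟩
      have hlt : ∀ c' ∈ c :: cs, c' < N + 1 := by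
        intro c' hc'
        rcases List.mem_cons.mp hc' with rfl | h
        · omega
        · have := hcs c' h
          omega
      have hsymm : G.IsSymmetric := by
        rw [hG]
        exact MvPolynomial.IsSymmetric.add (hBS1 (N + 1) (c :: cs) hdec)
          (MvPolynomial.IsSymmetric.mul (MvPolynomial.IsSymmetric.C _)
            ((hSTB (Polynomial ℤ) _).1 (N + 1)))
      have hstab : ∀ γ : Fin N → ℕ, coeff (ex (Fin.snoc γ 0 : Fin (N + 1) → ℕ)) G = 0 := by
        intro γ
        have h4 : coeff (ex (Fin.snoc γ 0 : Fin (N + 1) → ℕ))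
            (fJ (Polynomial.X : Polynomial ℤ) 0 (N + 1) (c :: cs)) =
            coeff (ex γ) (fJ (Polynomial.X : Polynomial ℤ) 0 N (c :: cs)) :=
          (hSTB (Polynomial ℤ) _).2 N γ
        rw [hG, coeff_add, coeff_C_mul, hBS4.1 N (c :: cs) γ hdec, h4, ihN]
        ring
      have hzero : Dop (Polynomial.X : Polynomial ℤ) 0 1 (N + 1) G = 0 := by
        rw [hG, (hDC (N + 1) (Polynomial ℤ) _ _ _).2.1, (hDC (N + 1) (Polynomial ℤ) _ _ _).2.2.1,
          hBS3 (N + 1) (c :: cs) hdec (Nat.succ_pos N) hlt,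
          (hUN (Polynomial ℤ) _ _).2.1 (N + 1) (c :: cs) hdec (Nat.succ_pos N) hlt]
        ring
      have hG0 : G = 0 := by
        by_contra hne
        obtain ⟨B, hB⟩ : ∃ B : Set (Fin (N + 1) → ℕ), B = {γ | coeff (ex γ) G ≠ 0} := ⟨_, rfl⟩
        have hBfin : B.Finite := by
          apply Set.Finite.subset (Set.Finite.image
            (fun s : Fin (N + 1) →₀ ℕ => (s : Fin (N + 1) → ℕ)) G.support.finite_toSet)
          intro γ hγ
          rw [hB, Set.mem_ofPred_eq] at hγ
          refine ⟨ex γ, ?_, rfl⟩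
          rw [Finset.mem_coe, mem_support_iff]
          exact hγ
        have hBne : B.Nonempty := by
          obtain ⟨s, hs⟩ := MvPolynomial.ne_zero_iff.mp hne
          refine ⟨fun i => s i, ?_⟩
          rw [hB, Set.mem_ofPred_eq, ex_coe]
          exact hs
        have hBsym : ∀ γ ∈ B, ∀ σ : Equiv.Perm (Fin (N + 1)), γ ∘ σ ∈ B := by
          intro γ hγ σ
          rw [hB, Set.mem_ofPred_eq] at hγ ⊢
          rw [bu_symm_coeff hsymm]
          exact hγ
        obtain ⟨ν, hν, hanti, hσ⟩ := hPM (N + 1) B hBfin hBne hBsym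
        rw [hB, Set.mem_ofPred_eq] at hν
        by_cases hlast : ν (Fin.last N) = 0
        · have h8 : (Fin.snoc (Fin.init ν) 0 : Fin (N + 1) → ℕ) = ν := by
            rw [← hlast]
            exact Fin.snoc_init_self ν
          apply hν
          rw [← h8, hstab]
        · have hpos : ∀ i, 0 < ν i := fun i =>
            lt_of_lt_of_le (Nat.pos_of_ne_zero hlast) (hanti (Fin.le_last i))
          have hco : coeff (ex (fun i => ν i + dl (N + 1) i)) (Dop (Polynomial.X : Polynomial ℤ)
              0 1 (N + 1) G) = 0 := by rw [hzero, coeff_zero]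
          rw [(hDC (N + 1) (Polynomial ℤ) _ _ _).1] at hco
          rw [Finset.sum_eq_single_of_mem (1 : Equiv.Perm (Fin (N + 1))) (Finset.mem_univ _)
            (by
              intro σ _ hσ1
              split_ifs with hc
              · have h9 := (hσ σ hσ1).1 hc
                rw [hB, Set.mem_ofPred_eq, not_not] at h9
                rw [h9, zero_mul, mul_zero]
              · rfl)] at hco
          rw [if_pos (fun i => by simp)] at hco
          simp only [Equiv.Perm.sign_one, Units.val_one, Int.cast_one,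
            Equiv.Perm.coe_one, id_eq, Nat.add_sub_cancel] at hco
          rw [one_mul] at hco
          rcases mul_eq_zero.mp hco with h10 | h10
          · exact hν h10
          · rw [Finset.prod_eq_zero_iff] at h10
            obtain ⟨i, _, hi⟩ := h10
            exact bu_factor _ _ (hpos i) hi
      rw [hG] at hG0
      have h11 : FB (N + 1) (c :: cs) - fJ (Polynomial.X : Polynomial ℤ) 0 (N + 1) (c :: cs) = 0 := by
        rw [← hG0, map_neg, C_1]
        ring
      exact sub_eq_zero.mp h11

end Pool.Agent.Helper18.HL
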