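import Pool.Agent.Helper7.HL.Stmts

/-!
# Row VD: divisibility by `(1 - q)^n` at `t = q^k`
-/

namespace Pool.Agent.Helper18.HL

open Finset MvPolynomial
open Pool.Agent.Helper32.HG Pool.Agent.Helper7.HL

theorem vd_map_altp (N : ℕ) {R R' : Type} [CommRing R] [CommRing R'] (φ : R →+* R')
    (l : Fin N → ℕ) : MvPolynomial.map φ (altp N R l) = altp N R' l := by
  unfold altp
  rw [map_sum]
  refine Finset.sum_congr rfl fun σ _ => ?_
  rw [map_monomial, map_intCast]

/-- `Dl` can be cancelled modulo a constant -/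
theorem vd_cancel (hAL2 : ST_AL2) (N : ℕ) (R : Type) [CommRing R] (a : R)
    (G : MvPolynomial (Fin N) R) (h : C a ∣ Dl N R * G) : C a ∣ G := by
  have hφ : Ideal.Quotient.mk (Ideal.span {a}) a = 0 :=
    Ideal.Quotient.eq_zero_iff_mem.mpr (Ideal.mem_span_singleton_self a)
  have h1 : MvPolynomial.map (Ideal.Quotient.mk (Ideal.span {a})) (Dl N R * G) = 0 := by
    obtain ⟨H, hH⟩ := h
    rw [hH, map_mul, map_C, hφ, C_0, zero_mul]
  rw [map_mul] at h1
  have h2 : MvPolynomial.map (Ideal.Quotient.mk (Ideal.span {a})) (Dl N R)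
      = Dl N (R ⧸ Ideal.span {a}) := vd_map_altp N _ _
  rw [h2] at h1
  have h3 := (hAL2 N (R ⧸ Ideal.span {a})).2 _ h1
  rw [C_dvd_iff_dvd_coeff]
  intro m
  have h4 : Ideal.Quotient.mk (Ideal.span {a}) (coeff m G) = 0 := by
    rw [← coeff_map, h3, coeff_zero]
  exact Ideal.mem_span_singleton.mp (Ideal.Quotient.eq_zero_iff_mem.mp h4)

theorem vd_geom (m : ℕ) : (1 - Polynomial.X ^ m : Polynomial ℤ)
    = (1 - Polynomial.X) * ∑ i ∈ range m, Polynomial.X ^ i :=
  (mul_neg_geom_sum (Polynomial.X : Polynomial ℤ) m).symm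

theorem vd_prod_dvd (N : ℕ) (m : Fin N → ℕ) :
    (1 - Polynomial.X : Polynomial ℤ) ^ N ∣ ∏ i, (1 - Polynomial.X ^ m i) := by
  have h : ∏ _i : Fin N, (1 - Polynomial.X : Polynomial ℤ) = (1 - Polynomial.X) ^ N := by
    rw [Finset.prod_const, Finset.card_univ, Fintype.card_fin]
  rw [← h]
  refine Finset.prod_dvd_prod_of_dvd _ _ fun i _ => ?_
  exact ⟨_, vd_geom (m i)⟩

theorem vd_prime : Prime (1 - Polynomial.X : Polynomial ℤ) := by
  have h := (Polynomial.prime_X_sub_C (1 : ℤ)).neg
  have h2 : -(Polynomial.X - Polynomial.C (1 : ℤ)) = (1 - Polynomial.X : Polynomial ℤ) := by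
    rw [Polynomial.C_1]
    ring
  rwa [h2] at h

theorem vd_factor (k a d : ℕ) (e : ℕ) :
    (1 - (Polynomial.X : Polynomial ℤ) ^ e * Polynomial.X ^ a * (Polynomial.X ^ k) ^ d)
      = 1 - Polynomial.X ^ (e + a + k * d) := by
  rw [← pow_mul, ← pow_add, ← pow_add]

theorem st_VD (hUN : ST_UN) (hSTB : ST_STB) (hPM : ST_PM) (hDC : ST_DC) (hAL2 : ST_AL2) :
    ST_VD := by
  intro k N cs
  induction cs generalizing N with
  | nil =>
    intro _ _ γ
    simp
  | cons c cs ih =>
    intro hdec hle
    have hcN : c ≤ N := hle c (by simp)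
    have hdec' : Dec cs := (List.pairwise_cons.mp hdec).2
    have hcs : ∀ c' ∈ cs, c' ≤ c := (List.pairwise_cons.mp hdec).1
    have hsum : (c :: cs).sum = c + cs.sum := List.sum_cons
    clear hle
    induction N, hcN using Nat.le_induction with
    | base =>
      have h1 := (hUN (Polynomial ℤ) Polynomial.X (Polynomial.X ^ k)).1 c cs hdec
      have h2 : C ((1 - Polynomial.X : Polynomial ℤ) ^ (c :: cs).sum) ∣
          Dop (Polynomial.X : Polynomial ℤ) (Polynomial.X ^ k) (Polynomial.X ^ k) c
            (fJ Polynomial.X (Polynomial.X ^ k) c cs) := by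
        rw [C_dvd_iff_dvd_coeff]
        intro s
        rw [← ex_coe s, (hDC c (Polynomial ℤ) _ _ _).1]
        refine Finset.dvd_sum fun σ _ => ?_
        split_ifs with hσ
        · refine Dvd.dvd.mul_left ?_ _
          rw [hsum, pow_add, mul_comm ((1 - Polynomial.X : Polynomial ℤ) ^ c)]
          refine mul_dvd_mul (ih c hdec' hcs _) ?_
          simp_rw [vd_factor]
          exact vd_prod_dvd c _
        · exact dvd_zero _
      have h3 : C ((1 - Polynomial.X : Polynomial ℤ) ^ (c :: cs).sum) ∣
          fJ Polynomial.X (Polynomial.X ^ k) c (c :: cs) := by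
        apply vd_cancel hAL2
        rw [h1]
        exact Dvd.dvd.mul_left h2 _
      intro γ
      rw [C_dvd_iff_dvd_coeff] at h3
      exact h3 _
    | succ N hcN ihN =>
      by_contra hcon
      push Not at hcon
      obtain ⟨γ0, hγ0⟩ := hcon
      obtain ⟨G, hG⟩ : ∃ G, G = fJ (Polynomial.X : Polynomial ℤ) (Polynomial.X ^ k) (N + 1)
        (c :: cs) := ⟨_, rfl⟩
      rw [← hG] at hγ0
      have hsymm : G.IsSymmetric := by
        rw [hG]
        exact (hSTB (Polynomial ℤ) _).1 (N + 1)
      have hstab : ∀ γ : Fin N → ℕ, coeff (ex (Fin.snoc γ 0 : Fin (N + 1) → ℕ)) G =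
          coeff (ex γ) (fJ (Polynomial.X : Polynomial ℤ) (Polynomial.X ^ k) N (c :: cs)) := by
        rw [hG]
        exact (hSTB (Polynomial ℤ) _).2 N
      have hzero : Dop (Polynomial.X : Polynomial ℤ) (Polynomial.X ^ k) 1 (N + 1) G = 0 := by
        rw [hG]
        refine (hUN (Polynomial ℤ) _ _).2.1 (N + 1) (c :: cs) hdec (Nat.succ_pos N) ?_
        intro c' hc'
        rcases List.mem_cons.mp hc' with rfl | h
        · omega
        · have := hcs c' h
          omega
      obtain ⟨B, hB⟩ : ∃ B : Set (Fin (N + 1) → ℕ), B = {γ | ¬ ((1 - Polynomial.X :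
        Polynomial ℤ) ^ (c :: cs).sum ∣ coeff (ex γ) G)} := ⟨_, rfl⟩
      have hBfin : B.Finite := by
        apply Set.Finite.subset (Set.Finite.image (fun s : Fin (N + 1) →₀ ℕ => (s : Fin (N + 1) → ℕ))
          G.support.finite_toSet)
        intro γ hγ
        rw [hB, Set.mem_ofPred_eq] at hγ
        refine ⟨ex γ, ?_, rfl⟩
        rw [Finset.mem_coe, mem_support_iff]
        intro h0
        apply hγ
        rw [h0]
        exact dvd_zero _
      have hBne : B.Nonempty := ⟨γ0, by rw [hB]; exact hγ0⟩
      have hBsym : ∀ γ ∈ B, ∀ σ : Equiv.Perm (Fin (N + 1)), γ ∘ σ ∈ B := by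
        intro γ hγ σ
        rw [hB, Set.mem_ofPred_eq] at hγ ⊢
        have h5 : coeff (ex (γ ∘ σ)) G = coeff (ex γ) G := by
          have h6 := hsymm σ
          have h7 : ex γ = Finsupp.mapDomain σ (ex (γ ∘ σ)) := by
            ext i
            rw [Finsupp.mapDomain_equiv_apply, ex_apply, ex_apply]
            simp
          conv_rhs => rw [← h6, h7]
          rw [coeff_rename_mapDomain _ σ.injective]
        rw [h5]
        exact hγ
      obtain ⟨ν, hν, hanti, hσ⟩ := hPM (N + 1) B hBfin hBne hBsym
      have hνB := hν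
      rw [hB, Set.mem_ofPred_eq] at hν
      by_cases hlast : ν (Fin.last N) = 0
      · -- stability
        have h8 : (Fin.snoc (Fin.init ν) 0 : Fin (N + 1) → ℕ) = ν := by
          rw [← hlast]
          exact Fin.snoc_init_self ν
        apply hν
        rw [← h8, hstab]
        exact ihN _
      · have hpos : ∀ i, 0 < ν i := fun i =>
          lt_of_lt_of_le (Nat.pos_of_ne_zero hlast) (hanti (Fin.le_last i))
        have hco : coeff (ex (fun i => ν i + dl (N + 1) i)) (Dop (Polynomial.X : Polynomial ℤ)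
            (Polynomial.X ^ k) 1 (N + 1) G) = 0 := by rw [hzero, coeff_zero]
        rw [(hDC (N + 1) (Polynomial ℤ) _ _ _).1] at hco
        rw [← Finset.add_sum_erase _ _ (Finset.mem_univ (1 : Equiv.Perm (Fin (N + 1))))] at hco
        have hrest : (1 - Polynomial.X : Polynomial ℤ) ^ (c :: cs).sum *
            (1 - Polynomial.X) ^ (N + 1) ∣
            ∑ σ ∈ (univ : Finset (Equiv.Perm (Fin (N + 1)))).erase 1,
              if ∀ i, dl (N + 1) i ≤ ν (σ i) + dl (N + 1) (σ i) then
                ((Equiv.Perm.sign σ : ℤ) : Polynomial ℤ) *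
                  (coeff (ex (fun i => ν (σ i) + dl (N + 1) (σ i) - dl (N + 1) i)) G *
                  ∏ i, (1 - 1 * Polynomial.X ^ (ν (σ i) + dl (N + 1) (σ i) - dl (N + 1) i) *
                    (Polynomial.X ^ k) ^ (dl (N + 1) i))) else 0 := by
          refine Finset.dvd_sum fun σ hσ1 => ?_
          split_ifs with hc
          · refine Dvd.dvd.mul_left ?_ _
            have h9 := (hσ σ (Finset.ne_of_mem_erase hσ1)).1 hc
            rw [hB, Set.mem_ofPred_eq, not_not] at h9
            refine mul_dvd_mul h9 ?_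
            have h10 : ∀ i, (1 - 1 * (Polynomial.X : Polynomial ℤ) ^
                (ν (σ i) + dl (N + 1) (σ i) - dl (N + 1) i) *
                (Polynomial.X ^ k) ^ (dl (N + 1) i)) = 1 - Polynomial.X ^
                (0 + (ν (σ i) + dl (N + 1) (σ i) - dl (N + 1) i) + k * dl (N + 1) i) := by
              intro i
              rw [← vd_factor, pow_zero]
            simp_rw [h10]
            exact vd_prod_dvd (N + 1) _
          · exact dvd_zero _
        have h11 : (1 - Polynomial.X : Polynomial ℤ) ^ (c :: cs).sum *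
            (1 - Polynomial.X) ^ (N + 1) ∣ (coeff (ex ν) G *
              ∏ i, ∑ j ∈ range (ν i + k * dl (N + 1) i), Polynomial.X ^ j) *
              (1 - Polynomial.X) ^ (N + 1) := by
          have h12 := (dvd_add_left hrest).mp (by rw [hco]; exact dvd_zero _ :
            (1 - Polynomial.X : Polynomial ℤ) ^ (c :: cs).sum *
            (1 - Polynomial.X) ^ (N + 1) ∣ _)
          rw [if_pos (fun i => by simp)] at h12
          simp only [Equiv.Perm.sign_one, Units.val_one, Int.cast_one, one_mul,
            Equiv.Perm.coe_one, id_eq, Nat.add_sub_cancel] at h12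
          have h13 : ∏ i, (1 - (Polynomial.X : Polynomial ℤ) ^ (ν i) *
              (Polynomial.X ^ k) ^ (dl (N + 1) i)) =
              (∏ i, ∑ j ∈ range (ν i + k * dl (N + 1) i), Polynomial.X ^ j) *
                (1 - Polynomial.X) ^ (N + 1) := by
            have h14 : ∏ _i : Fin (N + 1), (1 - Polynomial.X : Polynomial ℤ) =
                (1 - Polynomial.X) ^ (N + 1) := by
              rw [Finset.prod_const, Finset.card_univ, Fintype.card_fin]
            rw [← h14, ← Finset.prod_mul_distrib]
            refine Finset.prod_congr rfl fun i _ => ?_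
            rw [← pow_mul, ← pow_add, vd_geom, mul_comm]
          rw [h13, ← mul_assoc] at h12
          exact h12
        have hne : (1 - Polynomial.X : Polynomial ℤ) ^ (N + 1) ≠ 0 := pow_ne_zero _ vd_prime.ne_zero
        have h15 := (mul_dvd_mul_iff_right hne).mp h11
        apply hν
        refine vd_prime.pow_dvd_of_dvd_mul_right _ ?_ h15
        intro h16
        obtain ⟨Q, hQ⟩ := h16
        have h17 := congrArg (Polynomial.eval 1) hQ
        rw [Polynomial.eval_mul, Polynomial.eval_sub, Polynomial.eval_one, Polynomial.eval_X,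
          sub_self, zero_mul, Polynomial.eval_prod, Finset.prod_eq_zero_iff] at h17
        obtain ⟨i, _, hi⟩ := h17
        rw [Polynomial.eval_finsetSum] at hi
        simp only [Polynomial.eval_pow, Polynomial.eval_X, one_pow, Finset.sum_const,
          Finset.card_range, nsmul_eq_mul, mul_one] at hi
        have := hpos i
        have h18 : ν i + k * dl (N + 1) i = 0 := by exact_mod_cast hi
        omega

end Pool.Agent.Helper18.HL
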